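import Pool.Agent.Lib.MP_ce949a_lc.Final

set_option autoImplicit false

namespace Pool.Agent.Results.MP_ce949a_lc.FullTreeRes

/-- Literals over the variables `Fin n`: `(x, true)` is the variable `x`, `(x, false)` its negation. -/
abbrev Lit (n : ℕ) := Fin n × Bool

/-- A truth assignment satisfies a clause if it makes one of its literals true. -/
def Satisfies {n : ℕ} (α : Fin n → Bool) (C : Finset (Lit n)) : Prop := ∃ l ∈ C, α l.1 = l.2

/-- `TreeDer F C s`: the clause `C` has a tree-like resolution derivation from the clauses of `F`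
that contains `s` clauses, counted with repetition. -/
inductive TreeDer {n : ℕ} (F : Finset (Finset (Lit n))) : Finset (Lit n) → ℕ → Prop
  | ax (C : Finset (Lit n)) : C ∈ F → TreeDer F C 1
  | res (C D : Finset (Lit n)) (x : Fin n) (a b : ℕ) : TreeDer F C a → TreeDer F D b →
      (x, true) ∈ C → (x, false) ∈ D →
      TreeDer F (C.erase (x, true) ∪ D.erase (x, false)) (a + b + 1)

theorem result :
    ∃ c : ℝ, 0 < c ∧ ∀ k : ℕ, 1 ≤ k → ∃ N : ℕ, ∀ n : ℕ, N ≤ n →
      ∃ F : Finset (Finset (Lit n)),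
        (∀ C ∈ F, C.card ≤ k) ∧
        (¬ ∃ α : Fin n → Bool, ∀ C ∈ F, Satisfies α C) ∧
        ∀ s : ℕ, TreeDer F ∅ s → (1 - c / (k : ℝ)) * (n : ℝ) ≤ Real.logb 2 (s : ℝ) := by
  obtain ⟨c, hc, h⟩ := Pool.Agent.Lib.MP_ce949a_lc.full_bound
  refine ⟨c, hc, ?_⟩
  intro k hk
  obtain ⟨N, hN⟩ := h k hk
  refine ⟨N, ?_⟩
  intro n hn
  obtain ⟨F, h1, h2, h3⟩ := hN n hn
  refine ⟨F, h1, ?_, ?_⟩
  · rintro ⟨α, hα⟩
    obtain ⟨C, hC, hC'⟩ := h2 α
    obtain ⟨l, hl, hl'⟩ := hα C hC
    exact hC' l hl hl'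
  · intro s hs
    apply h3 s
    intro P hax hres
    have key : ∀ C m, TreeDer F C m → P C m := by
      intro C m hm
      induction hm with
      | ax C hC => exact hax C hC
      | res C D x a b _ _ hxC hxD ihC ihD => exact hres C D x a b ihC ihD hxC hxD
    exact key ∅ s hs

end Pool.Agent.Results.MP_ce949a_lc.FullTreeRes
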